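import Mathlib
import Pool.Agent.X27.CY.Final2

set_option autoImplicit false

/-!
# The number of cousin cyclic numbers between consecutive cubes tends to infinity
-/

namespace Pool.Agent.Results.MP_2543de_nt.CousinTendsto

open Filter Topology

/-- `m` is a cyclic number: `m` is positive and prime to `φ(m)`. -/
def IsCyclicNumber (m : ℕ) : Prop := 0 < m ∧ Nat.gcd m (Nat.totient m) = 1

/-- The number of the `c` such that `c` and `c + 4` are consecutive cyclic numbers with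
`n^3 < c < c + 4 < (n+1)^3`. -/
noncomputable def C (n : ℕ) : ℕ := Nat.card {c : ℕ | n ^ 3 < c ∧ c + 4 < (n + 1) ^ 3 ∧
  IsCyclicNumber c ∧ IsCyclicNumber (c + 4) ∧ ∀ d : ℕ, c < d → d < c + 4 → ¬ IsCyclicNumber d}

/-- The number of the pairs of cousin cyclics between `n^3` and `(n+1)^3` tends to infinity. -/
theorem result : ∀ k : ℕ, ∃ N : ℕ, ∀ n : ℕ, N ≤ n → k ≤ C n := by
  intro k
  have h := X27.CY.TG_tendsto (g := 4) (by simp)
  have hK := X27.CY.Kg_pos 4
  have h1 : ∀ᶠ n in atTop, X27.CY.Kg 4 < ((X27.CY.TG 4 n).card : ℝ) * X27.CY.sc n :=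
    h.eventually_const_lt (by linarith)
  have h2 := X27.CY.Ng_const (k : ℝ) (Nat.cast_nonneg k)
  have h3 : ∀ᶠ n in atTop, (k : ℝ) * X27.CY.sc n < X27.CY.Kg 4 :=
    Tendsto.eventually_lt_const hK h2
  obtain ⟨N, hN⟩ := eventually_atTop.1 (h1.and h3)
  refine ⟨N, fun n hn => ?_⟩
  obtain ⟨h4, h5⟩ := hN n hn
  have hC : C n = (X27.CY.TG 4 n).card := X27.CY.TG_card_eq 4 n
  rw [hC]
  by_contra hcon
  push Not at hcon
  have h6 : ((X27.CY.TG 4 n).card : ℝ) * X27.CY.sc n ≤ (k : ℝ) * X27.CY.sc n :=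
    mul_le_mul_of_nonneg_right (by exact_mod_cast hcon.le) (X27.CY.sc_nonneg n)
  linarith

end Pool.Agent.Results.MP_2543de_nt.CousinTendsto
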